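import Mathlib

/-!
# Switching classes of graphs, their decks, and two-graphs
-/

set_option maxHeartbeats 400000

namespace Pool.Q6.SW

open SimpleGraph

/-- The graph obtained from `G` by switching on the vertex set `τ`. -/
def switch {V : Type*} (G : SimpleGraph V) (τ : Set V) : SimpleGraph V where
  Adj x y := x ≠ y ∧ (G.Adj x y ↔ (x ∈ τ ↔ y ∈ τ))
  symm := ⟨by
    intro x y h
    refine ⟨h.1.symm, ?_⟩
    rw [G.adj_comm y x, h.2]
    exact Iff.comm⟩
  loopless := ⟨fun x h => h.1 rfl⟩

/-- `H` is isomorphic to a graph obtained from `G` by switching. -/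
def SwitchEquiv {V W : Type*} (G : SimpleGraph V) (H : SimpleGraph W) : Prop :=
  ∃ τ : Set V, Nonempty (switch G τ ≃g H)

/-- The card `G - v`. -/
abbrev card {V : Type*} (G : SimpleGraph V) (v : V) : SimpleGraph {x : V // x ≠ v} :=
  G.induce {x : V | x ≠ v}

/-- The cards of `G` and `H` can be matched so that matched cards are switching equivalent. -/
def SameDeck {n : ℕ} (G H : SimpleGraph (Fin n)) : Prop :=
  ∃ π : Equiv.Perm (Fin n), ∀ v, SwitchEquiv (card G v) (card H (π v))

/-- The switching class of `H` is reconstructible. -/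
def Recon {n : ℕ} (H : SimpleGraph (Fin n)) : Prop :=
  ∀ G : SimpleGraph (Fin n), SameDeck G H → SwitchEquiv G H

open Classical in
/-- the adjacency as a Boolean -/
noncomputable def a {V : Type*} (G : SimpleGraph V) (x y : V) : Bool := decide (G.Adj x y)

/-- the parity of the number of edges in a triple -/
noncomputable def t {V : Type*} (G : SimpleGraph V) (x y z : V) : Bool :=
  (a G x y ^^ a G y z) ^^ a G x z

theorem a_comm {V : Type*} (G : SimpleGraph V) (x y : V) : a G x y = a G y x := by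
  unfold a
  simp [G.adj_comm x y]

theorem a_iff {V : Type*} {G : SimpleGraph V} {x y : V} : a G x y = true ↔ G.Adj x y := by
  unfold a; simp

theorem t_rot {V : Type*} (G : SimpleGraph V) (x y z : V) : t G x y z = t G y z x := by
  unfold t
  rw [a_comm G z x, a_comm G y x]
  generalize a G x y = p; generalize a G y z = q; generalize a G x z = r
  cases p <;> cases q <;> cases r <;> rfl

theorem t_swap {V : Type*} (G : SimpleGraph V) (x y z : V) : t G x y z = t G y x z := by
  unfold t
  rw [a_comm G y x]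
  generalize a G x y = p; generalize a G y z = q; generalize a G x z = r
  cases p <;> cases q <;> cases r <;> rfl

theorem SwitchEquiv.exists_equiv {V W : Type*} {G : SimpleGraph V} {H : SimpleGraph W}
    (h : SwitchEquiv G H) : ∃ φ : V ≃ W, ∀ x y z, x ≠ y → y ≠ z → x ≠ z →
      t H (φ x) (φ y) (φ z) = t G x y z := by
  classical
  obtain ⟨τ, ⟨e⟩⟩ := h
  refine ⟨e.toEquiv, ?_⟩
  have key : ∀ x y, x ≠ y → a H (e x) (e y) = (a G x y ^^ (decide (x ∈ τ) ^^ decide (y ∈ τ))) := by
    intro x y hxy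
    have h1 : H.Adj (e x) (e y) ↔ (switch G τ).Adj x y := e.map_rel_iff'
    have h2 : (switch G τ).Adj x y ↔ (G.Adj x y ↔ (x ∈ τ ↔ y ∈ τ)) :=
      ⟨fun h => h.2, fun h => ⟨hxy, h⟩⟩
    unfold a
    by_cases hg : G.Adj x y <;> by_cases hx : x ∈ τ <;> by_cases hy : y ∈ τ <;>
      simp [h1, h2, hg, hx, hy]
  intro x y z h1 h2 h3
  show t H (e x) (e y) (e z) = _
  unfold t
  rw [key x y h1, key y z h2, key x z h3]
  generalize a G x y = p; generalize a G y z = q; generalize a G x z = r
  generalize decide (x ∈ τ) = p'; generalize decide (y ∈ τ) = q'; generalize decide (z ∈ τ) = r'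
  revert p q r p' q' r'
  decide

theorem switchEquiv_of_equiv {V W : Type*} {G : SimpleGraph V} {H : SimpleGraph W}
    (φ : V ≃ W) (h : ∀ x y z, x ≠ y → y ≠ z → x ≠ z → t H (φ x) (φ y) (φ z) = t G x y z) :
    SwitchEquiv G H := by
  classical
  rcases isEmpty_or_nonempty V with hV | ⟨⟨b⟩⟩
  · exact ⟨∅, ⟨⟨φ, fun {x} => hV.elim x⟩⟩⟩
  refine ⟨{x | x ≠ b ∧ a G b x ≠ a H (φ b) (φ x)}, ⟨⟨φ, ?_⟩⟩⟩
  intro x y
  rw [← a_iff (G := H)]
  show _ ↔ (x ≠ y ∧ (G.Adj x y ↔ _))
  by_cases hxy : x = y
  · subst hxy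
    simp [a_iff]
  rw [← a_iff (G := G)]
  simp only [Set.mem_setOf_eq, ne_eq, hxy, not_false_eq_true, true_and]
  by_cases hx : x = b
  · subst hx
    have : y ≠ x := fun h => hxy h.symm
    simp only [not_true_eq_false, false_and, this, not_false_eq_true, true_and, false_iff, not_not]
    generalize a G x y = p; generalize a H (φ x) (φ y) = q
    cases p <;> cases q <;> simp
  by_cases hy : y = b
  · subst hy
    simp only [not_true_eq_false, false_and, hx, not_false_eq_true, true_and, iff_false, not_not]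
    rw [a_comm G y x, a_comm H (φ y) (φ x)]
    generalize a G x y = p; generalize a H (φ x) (φ y) = q
    cases p <;> cases q <;> simp
  have := h b x y (fun h => hx h.symm) hxy (fun h => hy h.symm)
  unfold t at this
  simp only [hx, hy, not_false_eq_true, true_and]
  revert this
  generalize a G x y = p; generalize a H (φ x) (φ y) = q
  generalize a G b x = p1; generalize a H (φ b) (φ x) = q1
  generalize a G b y = p2; generalize a H (φ b) (φ y) = q2
  cases p <;> cases q <;> cases p1 <;> cases q1 <;> cases p2 <;> cases q2 <;> simp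

/-- the data of a common deck: permutations `Φ v` with `Φ v v = π v` that preserve `t` off `v`. -/
theorem SameDeck.exists_perm {n : ℕ} {G H : SimpleGraph (Fin n)} (h : SameDeck G H) :
    ∃ (π : Equiv.Perm (Fin n)) (Φ : Fin n → Equiv.Perm (Fin n)), (∀ v, Φ v v = π v) ∧
      ∀ v x y z, x ≠ v → y ≠ v → z ≠ v → x ≠ y → y ≠ z → x ≠ z →
        t H (Φ v x) (Φ v y) (Φ v z) = t G x y z := by
  classical
  obtain ⟨π, hπ⟩ := h
  choose φ hφ using fun v => (hπ v).exists_equiv
  have hΦ : ∀ v, ∃ Φ : Equiv.Perm (Fin n), Φ v = π v ∧ ∀ x (hx : x ≠ v), Φ x = (φ v ⟨x, hx⟩ : Fin n) := by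
    intro v
    let f : Fin n → Fin n := fun x => if hx : x = v then π v else (φ v ⟨x, hx⟩ : Fin n)
    have hf1 : f v = π v := by simp [f]
    have hf2 : ∀ x (hx : x ≠ v), f x = (φ v ⟨x, hx⟩ : Fin n) := by
      intro x hx; simp [f, hx]
    have hf : Function.Injective f := by
      intro x y hxy
      by_cases hx : x = v <;> by_cases hy : y = v
      · rw [hx, hy]
      · exfalso
        rw [hx, hf1, hf2 y hy] at hxy
        exact (φ v ⟨y, hy⟩).2 hxy.symm
      · exfalso
        rw [hy, hf1, hf2 x hx] at hxy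
        exact (φ v ⟨x, hx⟩).2 hxy
      · rw [hf2 x hx, hf2 y hy] at hxy
        have := (φ v).injective (Subtype.ext hxy)
        exact congrArg Subtype.val this
    exact ⟨Equiv.ofBijective f (Finite.injective_iff_bijective.1 hf), hf1, hf2⟩
  choose Φ hΦ1 hΦ2 using hΦ
  refine ⟨π, Φ, hΦ1, ?_⟩
  intro v x y z hx hy hz hxy hyz hxz
  rw [hΦ2 v x hx, hΦ2 v y hy, hΦ2 v z hz]
  have := hφ v ⟨x, hx⟩ ⟨y, hy⟩ ⟨z, hz⟩ (by simpa using hxy) (by simpa using hyz) (by simpa using hxz)
  exact this

/-- `H` is rigid: only the identity preserves the triples outside two vertices. -/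
def Rigid {n : ℕ} (H : SimpleGraph (Fin n)) : Prop :=
  ∀ (p q : Fin n) (σ : Equiv.Perm (Fin n)),
    (∀ x y z, x ≠ p → x ≠ q → y ≠ p → y ≠ q → z ≠ p → z ≠ q → x ≠ y → y ≠ z → x ≠ z →
      t H (σ x) (σ y) (σ z) = t H x y z) → ∀ x, x ≠ p → x ≠ q → σ x = x

theorem Rigid.recon {n : ℕ} (hn : 4 ≤ n) {H : SimpleGraph (Fin n)} (hH : Rigid H) : Recon H := by
  classical
  intro G hGH
  obtain ⟨π, Φ, hΦ1, hΦ2⟩ := hGH.exists_perm
  have hag : ∀ u v x, x ≠ u → x ≠ v → Φ u x = Φ v x := by
    intro u v x hxu hxv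
    have := hH (Φ v v) (Φ v u) ((Φ v).symm.trans (Φ u)) ?_ (Φ v x)
      (fun h => hxv ((Φ v).injective h)) (fun h => hxu ((Φ v).injective h))
    · simpa using this
    intro x y z hx1 hx2 hy1 hy2 hz1 hz2 hxy hyz hxz
    obtain ⟨x, rfl⟩ := (Φ v).surjective x
    obtain ⟨y, rfl⟩ := (Φ v).surjective y
    obtain ⟨z, rfl⟩ := (Φ v).surjective z
    simp only [Equiv.trans_apply, Equiv.symm_apply_apply]
    have e := (Φ v).injective
    rw [hΦ2 u x y z (fun h => hx2 (by rw [h])) (fun h => hy2 (by rw [h])) (fun h => hz2 (by rw [h]))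
      (fun h => hxy (by rw [h])) (fun h => hyz (by rw [h])) (fun h => hxz (by rw [h])),
      hΦ2 v x y z (fun h => hx1 (by rw [h])) (fun h => hy1 (by rw [h])) (fun h => hz1 (by rw [h]))
      (fun h => hxy (by rw [h])) (fun h => hyz (by rw [h])) (fun h => hxz (by rw [h]))]
  -- a vertex outside a set of at most three vertices
  have hout : ∀ x y z : Fin n, ∃ v, v ≠ x ∧ v ≠ y ∧ v ≠ z := by
    intro x y z
    by_contra hcon
    push Not at hcon
    have : (Finset.univ : Finset (Fin n)) ⊆ {x, y, z} := by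
      intro v _
      simp only [Finset.mem_insert, Finset.mem_singleton]
      by_cases h1 : v = x
      · exact Or.inl h1
      by_cases h2 : v = y
      · exact Or.inr (Or.inl h2)
      exact Or.inr (Or.inr (hcon v h1 h2))
    have h1 := Finset.card_le_card this
    have h2 := Finset.card_le_three (a := x) (b := y) (c := z)
    rw [Finset.card_univ, Fintype.card_fin] at h1
    omega
  choose w hw using fun x => hout x x x
  let ψ : Fin n → Fin n := fun x => Φ (w x) x
  have hψ : ∀ v x, x ≠ v → ψ x = Φ v x := by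
    intro v x hx
    exact hag (w x) v x (hw x).1.symm hx
  have hinj : Function.Injective ψ := by
    intro x y hxy
    obtain ⟨v, hv1, hv2, -⟩ := hout x y y
    rw [hψ v x hv1.symm, hψ v y hv2.symm] at hxy
    exact (Φ v).injective hxy
  refine switchEquiv_of_equiv (Equiv.ofBijective ψ (Finite.injective_iff_bijective.1 hinj)) ?_
  intro x y z hxy hyz hxz
  obtain ⟨v, hv1, hv2, hv3⟩ := hout x y z
  show t H (ψ x) (ψ y) (ψ z) = _
  rw [hψ v x hv1.symm, hψ v y hv2.symm, hψ v z hv3.symm]
  exact hΦ2 v x y z hv1.symm hv2.symm hv3.symm hxy hyz hxz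

end Pool.Q6.SW
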