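import Pool.Agent.Q6.SW.Basic

/-!
# Almost all graphs are rigid as switching classes
-/

set_option maxHeartbeats 400000

namespace Pool.Q6.SW

open SimpleGraph Finset

/-- a large set of moved points that is disjoint from its image -/
theorem exists_indep {n : ℕ} (σ : Equiv.Perm (Fin n)) (M : Finset (Fin n)) (hM : ∀ x ∈ M, σ x ≠ x) :
    ∃ X ⊆ M, (∀ x ∈ X, σ x ∉ X) ∧ X.card = (M.card + 2) / 3 := by
  classical
  obtain ⟨X0, hX0, hmax⟩ := Finset.exists_max_image
    (M.powerset.filter fun X => ∀ x ∈ X, σ x ∉ X) Finset.card ⟨∅, by simp⟩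
  rw [mem_filter, mem_powerset] at hX0
  have hcov : M ⊆ X0 ∪ (X0.image σ ∪ X0.image σ.symm) := by
    intro x hx
    by_contra hcon
    simp only [mem_union, not_or, mem_image, not_exists, not_and] at hcon
    obtain ⟨h1, h2, h3⟩ := hcon
    have h4 : insert x X0 ∈ M.powerset.filter fun X => ∀ x ∈ X, σ x ∉ X := by
      rw [mem_filter, mem_powerset]
      refine ⟨insert_subset hx hX0.1, ?_⟩
      intro y hy hy2
      rw [mem_insert] at hy hy2
      rcases hy with rfl | hy
      · rcases hy2 with h | h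
        · exact hM y hx h
        · exact h3 (σ y) h (σ.symm_apply_apply y)
      · rcases hy2 with h | h
        · exact h2 y hy h
        · exact hX0.2 y hy h
    have h5 := hmax _ h4
    rw [card_insert_of_notMem h1] at h5
    omega
  have h1 := card_le_card hcov
  have h2 := card_union_le X0 (X0.image σ ∪ X0.image σ.symm)
  have h3 := card_union_le (X0.image σ) (X0.image σ.symm)
  have h4 : (X0.image σ).card ≤ X0.card := card_image_le
  have h5 : (X0.image σ.symm).card ≤ X0.card := card_image_le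
  obtain ⟨X, hX, hXc⟩ := exists_subset_card_eq (s := X0) (n := (M.card + 2) / 3) (by omega)
  exact ⟨X, hX.trans hX0.1, fun x hx h => hX0.2 x (hX hx) (hX h), hXc⟩

/-- `σ` preserves the triples outside `p, q` -/
def Pres {n : ℕ} (H : SimpleGraph (Fin n)) (p q : Fin n) (σ : Equiv.Perm (Fin n)) : Prop :=
  ∀ x y z, x ≠ p → x ≠ q → y ≠ p → y ≠ q → z ≠ p → z ≠ q → x ≠ y → y ≠ z → x ≠ z →
      t H (σ x) (σ y) (σ z) = t H x y z

/-- the moved points outside `p, q` -/
def moved {n : ℕ} (p q : Fin n) (σ : Fin n → Fin n) : Finset (Fin n) :=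
  univ.filter fun x => x ≠ p ∧ x ≠ q ∧ σ x ≠ x

/-- flip the pairs in `R` -/
def flip {n : ℕ} (H : SimpleGraph (Fin n)) (R : Finset (Fin n × Fin n)) : SimpleGraph (Fin n) where
  Adj u v := u ≠ v ∧ (H.Adj u v ↔ ¬ ((u, v) ∈ R ∨ (v, u) ∈ R))
  symm := ⟨by
    intro u v h
    refine ⟨h.1.symm, ?_⟩
    rw [H.adj_comm v u, h.2, or_comm]⟩
  loopless := ⟨fun x h => h.1 rfl⟩

open Classical in
theorem bad_card {n : ℕ} (hn : 11 ≤ n) (p q : Fin n) (σ : Equiv.Perm (Fin n)) :
    (univ.filter fun H : SimpleGraph (Fin n) => Pres H p q σ).card *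
      2 ^ ((moved p q σ).card * (2 * ((n - 11) / 18))) ≤ Fintype.card (SimpleGraph (Fin n)) := by
  have hM : ∀ x ∈ moved p q σ, σ x ≠ x := by
    intro x hx
    unfold moved at hx
    rw [mem_filter] at hx
    exact hx.2.2.2
  obtain ⟨X, hX, hXσ, hXc⟩ := exists_indep σ (moved p q σ) hM
  have hmc : (moved p q σ).card ≤ n - 1 := by
    have : moved p q σ ⊆ univ.erase p := by
      intro x hx
      unfold moved at hx
      rw [mem_filter] at hx
      rw [mem_erase]
      exact ⟨hx.2.1, mem_univ _⟩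
    have := card_le_card this
    rwa [card_erase_of_mem (mem_univ _), card_univ, Fintype.card_fin] at this
  set B : Finset (Fin n) := univ.filter fun b => b ≠ p ∧ b ≠ q ∧ b ∉ X ∧ σ b ∉ X with hB
  have hBc : n ≤ B.card + (2 * X.card + 2) := by
    have hcov : (univ : Finset (Fin n)) ⊆ B ∪ (X ∪ (X.image σ.symm ∪ {p, q})) := by
      intro x _
      simp only [hB, mem_union, mem_filter, mem_univ, true_and, mem_image, mem_insert,
        mem_singleton]
      by_cases h1 : x = p
      · tauto
      by_cases h2 : x = q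
      · tauto
      by_cases h3 : x ∈ X
      · tauto
      by_cases h4 : σ x ∈ X
      · exact Or.inr (Or.inr (Or.inl ⟨σ x, h4, σ.symm_apply_apply x⟩))
      · exact Or.inl ⟨h1, h2, h3, h4⟩
    have h1 := card_le_card hcov
    have h2 := card_union_le B (X ∪ (X.image σ.symm ∪ {p, q}))
    have h3 := card_union_le X (X.image σ.symm ∪ {p, q})
    have h4 := card_union_le (X.image σ.symm) {p, q}
    have h5 : (X.image σ.symm).card ≤ X.card := card_image_le
    have h6 : ({p, q} : Finset (Fin n)).card ≤ 2 := card_le_two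
    rw [card_univ, Fintype.card_fin] at h1
    omega
  obtain ⟨b, hb⟩ : B.Nonempty := by
    rw [← card_pos]
    omega
  have hb' := hb
  rw [hB, mem_filter] at hb'
  obtain ⟨-, hbp, hbq, hbX, hbσ⟩ := hb'
  set Z := B.erase b with hZ
  have hZc : 3 * (2 * ((n - 11) / 18)) ≤ Z.card := by
    rw [hZ, card_erase_of_mem hb]
    omega
  have hZmem : ∀ z ∈ Z, z ≠ b ∧ z ≠ p ∧ z ≠ q ∧ z ∉ X ∧ σ z ∉ X := by
    intro z hz
    rw [hZ, mem_erase, hB, mem_filter] at hz
    exact ⟨hz.1, hz.2.2⟩
  have hXmem : ∀ x ∈ X, x ≠ p ∧ x ≠ q := by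
    intro x hx
    have := hX hx
    unfold moved at this
    rw [mem_filter] at this
    exact ⟨this.2.1, this.2.2.1⟩
  have hbZ : b ∉ Z := by
    intro h
    exact (hZmem b h).1 rfl
  have hcard : (univ.filter fun H : SimpleGraph (Fin n) => Pres H p q σ).card *
      2 ^ (X.card * Z.card) ≤ Fintype.card (SimpleGraph (Fin n)) := by
    have : ((univ.filter fun H : SimpleGraph (Fin n) => Pres H p q σ) ×ˢ (X ×ˢ Z).powerset).card ≤
        (univ : Finset (SimpleGraph (Fin n))).card := by
      refine card_le_card_of_injOn (fun P => flip P.1 P.2) (fun _ _ => mem_univ _) ?_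
      rintro ⟨H, R⟩ hHR ⟨H', R'⟩ hHR' heq
      rw [mem_coe, mem_product, mem_filter, mem_powerset] at hHR hHR'
      obtain ⟨⟨-, hP⟩, hR⟩ := hHR
      obtain ⟨⟨-, hP'⟩, hR'⟩ := hHR'
      simp only at heq hP hP' hR hR'
      have hadj : ∀ u v, u ≠ v → ((H.Adj u v ↔ ¬ ((u, v) ∈ R ∨ (v, u) ∈ R)) ↔
          (H'.Adj u v ↔ ¬ ((u, v) ∈ R' ∨ (v, u) ∈ R'))) := by
        intro u v huv
        have : (flip H R).Adj u v ↔ (flip H' R').Adj u v := by rw [heq]
        unfold flip at this
        simpa [huv] using this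
      have hoff : ∀ u v, ¬ (u ∈ X ∧ v ∈ Z) → ¬ (v ∈ X ∧ u ∈ Z) → (H.Adj u v ↔ H'.Adj u v) := by
        intro u v h1 h2
        by_cases huv : u = v
        · subst huv; simp
        have h3 := hadj u v huv
        have e1 : (u, v) ∉ R := fun h => h1 (mem_product.1 (hR h))
        have e2 : (v, u) ∉ R := fun h => h2 (mem_product.1 (hR h))
        have e3 : (u, v) ∉ R' := fun h => h1 (mem_product.1 (hR' h))
        have e4 : (v, u) ∉ R' := fun h => h2 (mem_product.1 (hR' h))
        simpa [e1, e2, e3, e4] using h3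
      have hoffa : ∀ u v, ¬ (u ∈ X ∧ v ∈ Z) → ¬ (v ∈ X ∧ u ∈ Z) → a H u v = a H' u v := by
        intro u v h1 h2
        unfold a
        simp [hoff u v h1 h2]
      have hon : ∀ x z, x ∈ X → z ∈ Z → (H.Adj x z ↔ H'.Adj x z) := by
        intro x z hx hz
        obtain ⟨z1, z2, z3, z4, z5⟩ := hZmem z hz
        obtain ⟨x1, x2⟩ := hXmem x hx
        have hxb : b ≠ x := fun h => hbX (h ▸ hx)
        have hxz : x ≠ z := fun h => z4 (h ▸ hx)
        have p1 := hP b x z hbp hbq x1 x2 z2 z3 hxb hxz z1.symm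
        have p2 := hP' b x z hbp hbq x1 x2 z2 z3 hxb hxz z1.symm
        unfold t at p1 p2
        have q1 := hoffa b x (fun h => hbX h.1) (fun h => hbZ h.2)
        have q2 := hoffa b z (fun h => hbX h.1) (fun h => z4 h.1)
        have q3 := hoffa (σ b) (σ x) (fun h => hbσ h.1) (fun h => hXσ x hx h.1)
        have q4 := hoffa (σ x) (σ z) (fun h => hXσ x hx h.1) (fun h => z5 h.1)
        have q5 := hoffa (σ b) (σ z) (fun h => hbσ h.1) (fun h => z5 h.1)
        rw [q1, q2, q3, q4, q5] at p1
        rw [p2] at p1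
        have : a H x z = a H' x z := by
          revert p1
          generalize a H' b x = r1; generalize a H' b z = r2; generalize a H x z = r3
          generalize a H' x z = r4
          revert r1 r2 r3 r4
          decide
        rw [← a_iff, this, a_iff]
      have hHH : H = H' := by
        ext u v
        by_cases h1 : u ∈ X ∧ v ∈ Z
        · exact hon u v h1.1 h1.2
        by_cases h2 : v ∈ X ∧ u ∈ Z
        · rw [H.adj_comm, H'.adj_comm]
          exact hon v u h2.1 h2.2
        exact hoff u v h1 h2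
      subst hHH
      have hRR : ∀ R R' : Finset (Fin n × Fin n), R ⊆ X ×ˢ Z → R' ⊆ X ×ˢ Z →
          (∀ u v, u ≠ v → ((H.Adj u v ↔ ¬ ((u, v) ∈ R ∨ (v, u) ∈ R)) ↔
          (H.Adj u v ↔ ¬ ((u, v) ∈ R' ∨ (v, u) ∈ R')))) → R ⊆ R' := by
        rintro R R' hR hR' hh ⟨x, z⟩ hxz
        have hx := (mem_product.1 (hR hxz)).1
        have hz := (mem_product.1 (hR hxz)).2
        simp only at hx hz
        have hne : x ≠ z := fun h => (hZmem z hz).2.2.2.1 (h ▸ hx)
        have e2 : (z, x) ∉ R' := fun h => (hZmem z hz).2.2.2.1 (mem_product.1 (hR' h)).1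
        have := hh x z hne
        by_contra hcon
        simp [hxz, e2, hcon] at this
      have hadj' := fun u v huv => (hadj u v huv).symm
      rw [Subset.antisymm (hRR R R' hR hR' hadj) (hRR R' R hR' hR hadj')]
    rwa [card_product, card_powerset, card_product, card_univ] at this
  refine le_trans (Nat.mul_le_mul_left _ (Nat.pow_le_pow_right (by norm_num) ?_)) hcard
  calc (moved p q σ).card * (2 * ((n - 11) / 18)) ≤ 3 * X.card * (2 * ((n - 11) / 18)) :=
        Nat.mul_le_mul_right _ (by omega)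
    _ = X.card * (3 * (2 * ((n - 11) / 18))) := by ring
    _ ≤ X.card * Z.card := Nat.mul_le_mul_left _ hZc

end Pool.Q6.SW
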