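import Pool.Agent.Q6.SW.Basic

/-!
# Switching classes of graphs of even order with all degrees of the same parity
-/

set_option maxHeartbeats 400000

namespace Pool.Q6.SW

open SimpleGraph Finset

variable {n : ℕ}

/-- the number of odd triples through a pair -/
noncomputable def d (G : SimpleGraph (Fin n)) (x y : Fin n) : ℕ :=
  (univ.filter fun z => z ≠ x ∧ z ≠ y ∧ t G x y z = true).card

/-- the number of odd triples through a pair avoiding `v` -/
noncomputable def dv (G : SimpleGraph (Fin n)) (v x y : Fin n) : ℕ :=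
  (univ.filter fun z => z ≠ x ∧ z ≠ y ∧ z ≠ v ∧ t G x y z = true).card

theorem d_split (G : SimpleGraph (Fin n)) {v x y : Fin n} (hx : v ≠ x) (hy : v ≠ y) :
    d G x y = dv G v x y + (if t G x y v = true then 1 else 0) := by
  unfold d dv
  by_cases h : t G x y v = true
  · rw [if_pos h]
    have : (univ.filter fun z => z ≠ x ∧ z ≠ y ∧ t G x y z = true) =
        insert v (univ.filter fun z => z ≠ x ∧ z ≠ y ∧ z ≠ v ∧ t G x y z = true) := by
      ext z
      simp only [mem_filter, mem_univ, true_and, mem_insert]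
      constructor
      · intro h1
        by_cases hz : z = v
        · exact Or.inl hz
        · exact Or.inr ⟨h1.1, h1.2.1, hz, h1.2.2⟩
      · rintro (h1 | h1)
        · rw [h1]; exact ⟨hx, hy, h⟩
        · exact ⟨h1.1, h1.2.1, h1.2.2.2⟩
    rw [this, card_insert_of_notMem]
    simp
  · rw [if_neg h, add_zero]
    congr 1
    ext z
    simp only [mem_filter, mem_univ, true_and]
    constructor
    · intro h1
      refine ⟨h1.1, h1.2.1, ?_, h1.2.2⟩
      rintro rfl
      exact h h1.2.2
    · intro h1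
      exact ⟨h1.1, h1.2.1, h1.2.2.2⟩

theorem dv_eq {G H : SimpleGraph (Fin n)} {v : Fin n} {Φ : Equiv.Perm (Fin n)}
    (hΦ : ∀ x y z, x ≠ v → y ≠ v → z ≠ v → x ≠ y → y ≠ z → x ≠ z →
        t H (Φ x) (Φ y) (Φ z) = t G x y z) {x y : Fin n} (hx : x ≠ v) (hy : y ≠ v) (hxy : x ≠ y) :
    dv H (Φ v) (Φ x) (Φ y) = dv G v x y := by
  unfold dv
  symm
  apply card_bij (fun z _ => Φ z)
  · intro z hz
    simp only [mem_filter, mem_univ, true_and] at hz ⊢
    refine ⟨fun h => hz.1 (Φ.injective h), fun h => hz.2.1 (Φ.injective h),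
      fun h => hz.2.2.1 (Φ.injective h), ?_⟩
    rw [hΦ x y z hx hy hz.2.2.1 hxy (Ne.symm hz.2.1) (Ne.symm hz.1)]
    exact hz.2.2.2
  · intro z _ w _ h
    exact Φ.injective h
  · intro w hw
    simp only [mem_filter, mem_univ, true_and] at hw
    refine ⟨Φ.symm w, ?_, Φ.apply_symm_apply w⟩
    obtain ⟨z, rfl⟩ := Φ.surjective w
    simp only [Equiv.symm_apply_apply, mem_filter, mem_univ, true_and]
    have h1 : z ≠ x := fun h => hw.1 (by rw [h])
    have h2 : z ≠ y := fun h => hw.2.1 (by rw [h])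
    have h3 : z ≠ v := fun h => hw.2.2.1 (by rw [h])
    refine ⟨h1, h2, h3, ?_⟩
    rw [← hΦ x y z hx hy h3 hxy (Ne.symm h2) (Ne.symm h1)]
    exact hw.2.2.2

/-- sum over the cards -/
noncomputable def cardSum (G : SimpleGraph (Fin n)) (F : ℕ → ℤ) : ℤ :=
  ∑ v, ∑ x, ∑ y, if x ≠ y ∧ x ≠ v ∧ y ≠ v then F (dv G v x y) else 0

theorem cardSum_eq {G H : SimpleGraph (Fin n)} (h : SameDeck G H) (F : ℕ → ℤ) :
    cardSum G F = cardSum H F := by
  obtain ⟨π, Φ, h1, h2⟩ := h.exists_perm
  unfold cardSum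
  rw [← Equiv.sum_comp π (fun v => ∑ x, ∑ y, if x ≠ y ∧ x ≠ v ∧ y ≠ v then F (dv H v x y) else 0)]
  apply sum_congr rfl
  intro v _
  rw [← Equiv.sum_comp (Φ v) (fun x => ∑ y, if x ≠ y ∧ x ≠ π v ∧ y ≠ π v then F (dv H (π v) x y) else 0)]
  apply sum_congr rfl
  intro x _
  rw [← Equiv.sum_comp (Φ v) (fun y => if Φ v x ≠ y ∧ Φ v x ≠ π v ∧ y ≠ π v then
    F (dv H (π v) (Φ v x) y) else 0)]
  apply sum_congr rfl
  intro y _
  by_cases hc : x ≠ y ∧ x ≠ v ∧ y ≠ v
  · rw [if_pos hc, if_pos, ← h1 v, dv_eq (h2 v) hc.2.1 hc.2.2 hc.1]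
    rw [← h1 v]
    exact ⟨fun h => hc.1 ((Φ v).injective h), fun h => hc.2.1 ((Φ v).injective h),
      fun h => hc.2.2 ((Φ v).injective h)⟩
  · rw [if_neg hc, if_neg]
    rw [← h1 v]
    intro hc'
    exact hc ⟨fun h => hc'.1 (by rw [h]), fun h => hc'.2.1 (by rw [h]), fun h => hc'.2.2 (by rw [h])⟩

theorem choose_aux (d s : ℕ) : (d : ℤ) * ((d - 1).choose s : ℤ) = ((d : ℤ) - s) * (d.choose s : ℤ) := by
  rcases d with _ | d
  · rcases s with _ | s
    · simp
    · simp
  · rw [Nat.add_sub_cancel]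
    have h := Nat.choose_mul_succ_eq d s
    by_cases hs : s ≤ d + 1
    · have h' : ((d.choose s : ℤ)) * ((d : ℤ) + 1) = ((d + 1).choose s : ℤ) * (((d + 1 : ℕ) : ℤ) - s) := by
        rw [← Nat.cast_sub hs]
        exact_mod_cast h
      push_cast at h' ⊢
      linarith
    · rw [Nat.choose_eq_zero_of_lt (by omega : d < s), Nat.choose_eq_zero_of_lt (by omega : d + 1 < s)]
      simp

theorem sum_choose (G : SimpleGraph (Fin n)) (s : ℕ) {x y : Fin n} (hxy : x ≠ y) :
    ∑ v, (if x ≠ y ∧ x ≠ v ∧ y ≠ v then ((dv G v x y).choose s : ℤ) else 0) =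
      ((n : ℤ) - 2 - s) * ((d G x y).choose s : ℤ) := by
  have hsplit : ∀ v, (if x ≠ y ∧ x ≠ v ∧ y ≠ v then ((dv G v x y).choose s : ℤ) else 0) =
      (if v ≠ x ∧ v ≠ y ∧ t G x y v = true then ((d G x y - 1).choose s : ℤ) else 0) +
      (if v ≠ x ∧ v ≠ y ∧ t G x y v = false then ((d G x y).choose s : ℤ) else 0) := by
    intro v
    by_cases hv : v ≠ x ∧ v ≠ y
    · rw [if_pos ⟨hxy, hv.1.symm, hv.2.symm⟩]
      have h1 := d_split G hv.1 hv.2
      by_cases ht : t G x y v = true
      · rw [if_pos ⟨hv.1, hv.2, ht⟩, if_neg (by rw [ht]; simp), add_zero]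
        rw [if_pos ht] at h1
        rw [h1, Nat.add_sub_cancel]
      · have ht' : t G x y v = false := by simpa using ht
        rw [if_neg (by tauto), if_pos ⟨hv.1, hv.2, ht'⟩, zero_add]
        rw [if_neg ht] at h1
        rw [h1, add_zero]
    · rw [if_neg, if_neg, if_neg, add_zero]
      · tauto
      · tauto
      · intro h
        exact hv ⟨Ne.symm h.2.1, Ne.symm h.2.2⟩
  simp_rw [hsplit]
  rw [sum_add_distrib, ← sum_filter, ← sum_filter, sum_const, sum_const]
  have h1 : (univ.filter fun v => v ≠ x ∧ v ≠ y ∧ t G x y v = true).card = d G x y := rfl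
  have h2 : (univ.filter fun v => v ≠ x ∧ v ≠ y ∧ t G x y v = false).card + d G x y = n - 2 := by
    rw [← h1, ← card_union_of_disjoint]
    · have : (univ.filter fun v => v ≠ x ∧ v ≠ y ∧ t G x y v = false) ∪
          (univ.filter fun v => v ≠ x ∧ v ≠ y ∧ t G x y v = true) = (univ.erase x).erase y := by
        ext v
        simp only [mem_union, mem_filter, mem_univ, true_and, mem_erase, and_true]
        cases t G x y v <;> simp [and_comm]
      rw [this, card_erase_of_mem (by simp [hxy.symm]), card_erase_of_mem (mem_univ _), card_univ,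
        Fintype.card_fin]
      omega
    · rw [disjoint_filter]
      intro v _ h3 h4
      rw [h3.2.2] at h4
      exact absurd h4.2.2 (by simp)
  have hn2 : 2 ≤ n := by
    have h3 : ({x, y} : Finset (Fin n)).card ≤ (univ : Finset (Fin n)).card := card_le_card (subset_univ _)
    rw [card_pair hxy, card_univ, Fintype.card_fin] at h3
    exact h3
  rw [h1]
  have h3 : ((univ.filter fun v => v ≠ x ∧ v ≠ y ∧ t G x y v = false).card : ℤ) = n - 2 - d G x y := by
    have : ((univ.filter fun v => v ≠ x ∧ v ≠ y ∧ t G x y v = false).card : ℤ) + d G x y =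
      ((n - 2 : ℕ) : ℤ) := by exact_mod_cast h2
    rw [Nat.cast_sub hn2] at this
    push_cast at this
    linarith
  rw [nsmul_eq_mul, nsmul_eq_mul, h3, choose_aux]
  ring

/-- the sum of `C(d(x,y), s)` over the ordered pairs -/
noncomputable def K (G : SimpleGraph (Fin n)) (s : ℕ) : ℤ :=
  ∑ x, ∑ y, if x ≠ y then ((d G x y).choose s : ℤ) else 0

theorem cardSum_choose (G : SimpleGraph (Fin n)) (s : ℕ) :
    cardSum G (fun k => (k.choose s : ℤ)) = ((n : ℤ) - 2 - s) * K G s := by
  unfold cardSum K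
  rw [sum_comm, mul_sum]
  apply sum_congr rfl
  intro x _
  rw [sum_comm, mul_sum]
  apply sum_congr rfl
  intro y _
  by_cases hxy : x ≠ y
  · rw [sum_choose G s hxy, if_pos hxy]
  · rw [if_neg hxy, mul_zero]
    apply sum_eq_zero
    intro v _
    rw [if_neg (by tauto)]

theorem K_eq {G H : SimpleGraph (Fin n)} (h : SameDeck G H) {s : ℕ} (hs : s < n - 2) :
    K G s = K H s := by
  have h1 := cardSum_eq h (fun k => (k.choose s : ℤ))
  rw [cardSum_choose, cardSum_choose] at h1
  have h2 : (n : ℤ) - 2 - s ≠ 0 := by omega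
  exact mul_left_cancel₀ h2 h1

/-- the signed number of ordered pairs -/
noncomputable def D (G : SimpleGraph (Fin n)) : ℤ :=
  ∑ x, ∑ y, if x ≠ y then (-1 : ℤ) ^ (d G x y) else 0

theorem d_le (G : SimpleGraph (Fin n)) {x y : Fin n} (hxy : x ≠ y) : d G x y ≤ n - 2 := by
  have : (univ.filter fun z => z ≠ x ∧ z ≠ y ∧ t G x y z = true) ⊆ (univ.erase x).erase y := by
    intro z hz
    simp only [mem_filter, mem_univ, true_and, mem_erase, and_true] at hz ⊢
    exact ⟨hz.2.1, hz.1⟩
  have h := card_le_card this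
  rw [card_erase_of_mem (by simp [hxy.symm]), card_erase_of_mem (mem_univ _), card_univ,
        Fintype.card_fin] at h
  unfold d
  omega

theorem D_eq (G : SimpleGraph (Fin n)) : D G = ∑ s ∈ range (n - 2 + 1), (-2 : ℤ) ^ s * K G s := by
  unfold D K
  simp_rw [mul_sum]
  symm
  rw [sum_comm]
  apply sum_congr rfl
  intro x _
  rw [sum_comm]
  apply sum_congr rfl
  intro y _
  symm
  by_cases hxy : x ≠ y
  · simp only [if_pos hxy]
    have h1 : (-1 : ℤ) ^ (d G x y) = ((-2 : ℤ) + 1) ^ (d G x y) := by norm_num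
    rw [h1, add_pow]
    simp only [one_pow, mul_one]
    apply sum_subset
    · intro s hs
      rw [mem_range] at hs ⊢
      have := d_le G hxy
      omega
    · intro s _ hs
      rw [mem_range, not_lt] at hs
      rw [Nat.choose_eq_zero_of_lt (by omega)]
      simp
  · simp [if_neg hxy]

theorem D_sub {G H : SimpleGraph (Fin n)} (h : SameDeck G H) :
    D G - D H = (-2 : ℤ) ^ (n - 2) * (K G (n - 2) - K H (n - 2)) := by
  rw [D_eq, D_eq, sum_range_succ, sum_range_succ]
  have : ∑ s ∈ range (n - 2), (-2 : ℤ) ^ s * K G s = ∑ s ∈ range (n - 2), (-2 : ℤ) ^ s * K H s := by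
    apply sum_congr rfl
    intro s hs
    rw [K_eq h (mem_range.1 hs)]
  rw [this]
  ring

theorem sum_pairs : ∑ x : Fin n, ∑ y : Fin n, (if x ≠ y then (1 : ℤ) else 0) = n * ((n : ℤ) - 1) := by
  have h1 : ∀ x : Fin n, ∑ y : Fin n, (if x ≠ y then (1 : ℤ) else 0) = (n : ℤ) - 1 := by
    intro x
    have h2 : ∀ y : Fin n, (if x ≠ y then (1 : ℤ) else 0) = 1 - (if x = y then (1 : ℤ) else 0) := by
      intro y
      by_cases h : x = y <;> simp [h]
    simp_rw [h2]
    rw [sum_sub_distrib, sum_ite_eq univ x]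
    simp
  simp_rw [h1]
  simp only [sum_const, card_univ, Fintype.card_fin, nsmul_eq_mul]

theorem D_le (G : SimpleGraph (Fin n)) : D G ≤ n * ((n : ℤ) - 1) := by
  rw [← sum_pairs]
  unfold D
  apply sum_le_sum
  intro x _
  apply sum_le_sum
  intro y _
  split_ifs
  · rcases neg_one_pow_eq_or ℤ (d G x y) with h | h <;> rw [h] <;> norm_num
  · exact le_refl _

theorem le_D (G : SimpleGraph (Fin n)) : -(n * ((n : ℤ) - 1)) ≤ D G := by
  rw [← sum_pairs, ← sum_neg_distrib]
  unfold D
  apply sum_le_sum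
  intro x _
  rw [← sum_neg_distrib]
  apply sum_le_sum
  intro y _
  split_ifs
  · rcases neg_one_pow_eq_or ℤ (d G x y) with h | h <;> rw [h] <;> norm_num
  · simp

theorem D_of_even {G : SimpleGraph (Fin n)} (h : ∀ x y, x ≠ y → Even (d G x y)) :
    D G = n * ((n : ℤ) - 1) := by
  rw [← sum_pairs]
  unfold D
  apply sum_congr rfl
  intro x _
  apply sum_congr rfl
  intro y _
  split_ifs with hxy
  · exact (h x y hxy).neg_one_pow
  · rfl

theorem even_of_D {G : SimpleGraph (Fin n)} (h : D G = n * ((n : ℤ) - 1)) :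
    ∀ x y, x ≠ y → Even (d G x y) := by
  intro x y hxy
  by_contra hcon
  rw [Nat.not_even_iff_odd] at hcon
  have h1 : D G < ∑ x : Fin n, ∑ y : Fin n, (if x ≠ y then (1 : ℤ) else 0) := by
    unfold D
    apply sum_lt_sum
    · intro x _
      apply sum_le_sum
      intro y _
      split_ifs
      · rcases neg_one_pow_eq_or ℤ (d G x y) with h | h <;> rw [h] <;> norm_num
      · exact le_refl _
    · refine ⟨x, mem_univ _, ?_⟩
      apply sum_lt_sum
      · intro y _
        split_ifs
        · rcases neg_one_pow_eq_or ℤ (d G x y) with h | h <;> rw [h] <;> norm_num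
        · exact le_refl _
      · refine ⟨y, mem_univ _, ?_⟩
        rw [if_pos hxy, if_pos hxy, hcon.neg_one_pow]
        norm_num
  rw [sum_pairs, h] at h1
  exact lt_irrefl _ h1

theorem two_pow_gt : ∀ n : ℕ, 10 ≤ n → 2 * (n * (n - 1)) < 2 ^ (n - 2) := by
  intro n hn
  induction n, hn using Nat.le_induction with
  | base => norm_num
  | succ n hn ih =>
    have h1 : 2 ^ (n + 1 - 2) = 2 * 2 ^ (n - 2) := by
      rw [← pow_succ']
      congr 1
      omega
    rw [h1]
    obtain ⟨k, rfl⟩ : ∃ k, n = k + 10 := ⟨n - 10, by omega⟩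
    simp only [Nat.add_sub_cancel, show k + 10 - 1 = k + 9 by omega] at ih ⊢
    nlinarith

/-- if all pair degrees of `H` are even, then so are those of `G` -/
theorem even_transfer (hn : 10 ≤ n) {G H : SimpleGraph (Fin n)} (h : SameDeck G H)
    (hH : ∀ x y, x ≠ y → Even (d H x y)) : ∀ x y, x ≠ y → Even (d G x y) := by
  apply even_of_D
  have h1 := D_sub h
  have h2 := D_of_even hH
  have h3 := D_le G
  have h4 := le_D G
  have h5 : (2 * (n * ((n : ℤ) - 1))) < 2 ^ (n - 2) := by
    have := two_pow_gt n hn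
    zify [show 1 ≤ n by omega] at this
    exact this
  by_cases h0 : K G (n - 2) - K H (n - 2) = 0
  · rw [h0, mul_zero] at h1
    linarith
  · exfalso
    have h6 : (2 : ℤ) ^ (n - 2) ≤ |D G - D H| := by
      rw [h1, abs_mul, abs_pow, show |(-2 : ℤ)| = 2 by norm_num]
      have : 1 ≤ |K G (n - 2) - K H (n - 2)| := Int.one_le_abs h0
      have h7 : (0 : ℤ) < 2 ^ (n - 2) := by positivity
      nlinarith
    have h7 : |D G - D H| ≤ 2 * (n * ((n : ℤ) - 1)) := by
      rw [abs_le]
      constructor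
      · linarith
      · have : (0 : ℤ) ≤ n * ((n : ℤ) - 1) := by
          have : (1 : ℤ) ≤ n := by exact_mod_cast (by omega : 1 ≤ n)
          nlinarith
        linarith
    linarith

theorem recon_of_even (hn : 10 ≤ n) {H : SimpleGraph (Fin n)}
    (hH : ∀ x y, x ≠ y → Even (d H x y)) : Recon H := by
  intro G hGH
  have hG := even_transfer hn hGH hH
  obtain ⟨π, Φ, hΦ1, hΦ2⟩ := hGH.exists_perm
  let v : Fin n := ⟨0, by omega⟩
  have key : ∀ x y, x ≠ v → y ≠ v → x ≠ y → t H (Φ v x) (Φ v y) (Φ v v) = t G x y v := by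
    intro x y hx hy hxy
    have h1 := d_split G hx.symm hy.symm
    have h2 := d_split H (v := Φ v v) (x := Φ v x) (y := Φ v y)
      (fun h => hx ((Φ v).injective h).symm) (fun h => hy ((Φ v).injective h).symm)
    rw [dv_eq (hΦ2 v) hx hy hxy] at h2
    have h3 := hG x y hxy
    have h4 := hH (Φ v x) (Φ v y) (fun h => hxy ((Φ v).injective h))
    rw [h1] at h3
    rw [h2] at h4
    revert h3 h4
    generalize dv G v x y = k
    cases t G x y v <;> cases t H (Φ v x) (Φ v y) (Φ v v)
    · intro _ _; rfl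
    · intro h5 h6
      rw [if_pos rfl, Nat.even_add_one] at h6
      simp only [Bool.false_eq_true, if_false, add_zero] at h5
      exact absurd h5 h6
    · intro h5 h6
      rw [if_pos rfl, Nat.even_add_one] at h5
      simp only [Bool.false_eq_true, if_false, add_zero] at h6
      exact absurd h6 h5
    · intro _ _; rfl
  refine switchEquiv_of_equiv (Φ v) ?_
  intro x y z hxy hyz hxz
  by_cases hx : x = v
  · rw [hx] at hxy hxz ⊢
    rw [t_rot, t_rot G v y z]
    exact key y z hxy.symm hxz.symm hyz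
  by_cases hy : y = v
  · rw [hy] at hxy hyz ⊢
    rw [← t_rot, ← t_rot G z x v]
    exact key z x hyz.symm hx hxz.symm
  by_cases hz : z = v
  · rw [hz]
    exact key x y hx hy hxy
  exact hΦ2 v x y z hx hy hz hxy hyz hxz

open Classical in
/-- the pair degrees and the degrees -/
theorem even_of_parity (hn : Even n) {H : SimpleGraph (Fin n)}
    (hH : ∀ x y, H.degree x % 2 = H.degree y % 2) : ∀ x y, x ≠ y → Even (d H x y) := by
  intro x y hxy
  -- work in `ZMod 2`
  have h1 : ((d H x y : ℕ) : ZMod 2) = ∑ z, if z ≠ x ∧ z ≠ y then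
      ((if a H x y = true then (1 : ZMod 2) else 0) + (if a H y z = true then (1 : ZMod 2) else 0) +
        (if a H x z = true then (1 : ZMod 2) else 0)) else 0 := by
    unfold d
    rw [card_filter]
    push_cast
    apply sum_congr rfl
    intro z _
    by_cases hz : z ≠ x ∧ z ≠ y
    · rw [if_pos hz]
      simp only [hz.1, hz.2, ne_eq, not_false_eq_true, true_and]
      unfold t
      generalize a H x y = p; generalize a H y z = q; generalize a H x z = r
      revert p q r
      decide
    · rw [if_neg hz, if_neg (fun h => hz ⟨h.1, h.2.1⟩)]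
  have hdeg : ∀ x, ((H.degree x : ℕ) : ZMod 2) = ∑ z, if a H x z = true then (1 : ZMod 2) else 0 := by
    intro x
    rw [← card_neighborFinset_eq_degree, neighborFinset_eq_filter, card_filter]
    push_cast
    apply sum_congr rfl
    intro z _
    simp only [a_iff]
  have hax : ∀ x, a H x x = false := by
    intro x; unfold a; simp
  have h2 : ∑ z, (if z ≠ x ∧ z ≠ y then
      ((if a H x y = true then (1 : ZMod 2) else 0) + (if a H y z = true then (1 : ZMod 2) else 0) +
        (if a H x z = true then (1 : ZMod 2) else 0)) else 0) =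
      ∑ z, ((if a H x y = true then (1 : ZMod 2) else 0) + (if a H y z = true then (1 : ZMod 2) else 0) +
        (if a H x z = true then (1 : ZMod 2) else 0)) := by
    apply sum_congr rfl
    intro z _
    by_cases hz : z ≠ x ∧ z ≠ y
    · rw [if_pos hz]
    · rw [if_neg hz]
      have hz' : z = x ∨ z = y := by tauto
      rcases hz' with rfl | rfl
      · rw [hax, a_comm H y z]
        cases a H z y <;> decide
      · rw [hax]
        cases a H x z <;> decide
  rw [h2, sum_add_distrib, sum_add_distrib, ← hdeg, ← hdeg, sum_const, card_univ, Fintype.card_fin,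
    nsmul_eq_mul] at h1
  have h3 : ((n : ℕ) : ZMod 2) = 0 := by
    rw [ZMod.natCast_eq_zero_iff]
    exact hn.two_dvd
  have h4 : ((H.degree y : ℕ) : ZMod 2) = ((H.degree x : ℕ) : ZMod 2) := by
    rw [ZMod.natCast_eq_natCast_iff]
    exact hH y x
  rw [h3, h4, zero_mul, zero_add] at h1
  have h5 : ((H.degree x : ℕ) : ZMod 2) + ((H.degree x : ℕ) : ZMod 2) = 0 := CharTwo.add_self_eq_zero _
  rw [h5, ZMod.natCast_eq_zero_iff] at h1
  exact even_iff_two_dvd.2 h1

end Pool.Q6.SW
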