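import Pool.Agent.Q6.SW.Few

/-!
# Three cards determine the switching class of almost every graph
-/

set_option maxHeartbeats 400000

namespace Pool.Q6.SW

open SimpleGraph Finset

/-- Every graph that has three cards (of three different vertices) which are switching equivalent
to the cards of three different vertices of `H` is switching equivalent to `H`. -/
def Three {n : ℕ} (H : SimpleGraph (Fin n)) : Prop :=
  ∀ (G : SimpleGraph (Fin n)) (u v : Fin 3 ↪ Fin n),
    (∀ i, SwitchEquiv (card G (u i)) (card H (v i))) → SwitchEquiv G H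

theorem exists_perm_one {n : ℕ} {G H : SimpleGraph (Fin n)} {u v : Fin n}
    (h : SwitchEquiv (card G u) (card H v)) :
    ∃ Φ : Equiv.Perm (Fin n), Φ u = v ∧
      ∀ x y z, x ≠ u → y ≠ u → z ≠ u → x ≠ y → y ≠ z → x ≠ z →
        t H (Φ x) (Φ y) (Φ z) = t G x y z := by
  classical
  obtain ⟨φ, hφ⟩ := h.exists_equiv
  let f : Fin n → Fin n := fun x => if hx : x = u then v else (φ ⟨x, hx⟩ : Fin n)
  have hf1 : f u = v := by simp [f]
  have hf2 : ∀ x (hx : x ≠ u), f x = (φ ⟨x, hx⟩ : Fin n) := by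
    intro x hx; simp [f, hx]
  have hf : Function.Injective f := by
    intro x y hxy
    by_cases hx : x = u <;> by_cases hy : y = u
    · rw [hx, hy]
    · exfalso
      rw [hx, hf1, hf2 y hy] at hxy
      exact (φ ⟨y, hy⟩).2 hxy.symm
    · exfalso
      rw [hy, hf1, hf2 x hx] at hxy
      exact (φ ⟨x, hx⟩).2 hxy
    · rw [hf2 x hx, hf2 y hy] at hxy
      have := φ.injective (Subtype.ext hxy)
      exact congrArg Subtype.val this
  refine ⟨Equiv.ofBijective f (Finite.injective_iff_bijective.1 hf), hf1, ?_⟩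
  intro x y z hx hy hz hxy hyz hxz
  show t H (f x) (f y) (f z) = _
  rw [hf2 x hx, hf2 y hy, hf2 z hz]
  exact hφ ⟨x, hx⟩ ⟨y, hy⟩ ⟨z, hz⟩ (by simpa using hxy) (by simpa using hyz) (by simpa using hxz)

theorem t_four {V : Type*} (G : SimpleGraph V) (x y z w : V) :
    t G x y z = ((t G x y w ^^ t G x z w) ^^ t G y z w) := by
  unfold t
  generalize a G x y = p1; generalize a G y z = p2; generalize a G x z = p3
  generalize a G y w = p4; generalize a G x w = p5; generalize a G z w = p6
  revert p1 p2 p3 p4 p5 p6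
  decide

theorem Rigid.three {n : ℕ} (hn : 4 ≤ n) {H : SimpleGraph (Fin n)} (hH : Rigid H) : Three H := by
  classical
  intro G u v huv
  choose Φ hΦ1 hΦ2 using fun i => exists_perm_one (huv i)
  have hag : ∀ i j x, x ≠ u i → x ≠ u j → Φ i x = Φ j x := by
    intro i j x hxi hxj
    have := hH (Φ j (u j)) (Φ j (u i)) ((Φ j).symm.trans (Φ i)) ?_ (Φ j x)
      (fun h => hxj ((Φ j).injective h)) (fun h => hxi ((Φ j).injective h))
    · simpa using this
    intro x y z hx1 hx2 hy1 hy2 hz1 hz2 hxy hyz hxz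
    obtain ⟨x, rfl⟩ := (Φ j).surjective x
    obtain ⟨y, rfl⟩ := (Φ j).surjective y
    obtain ⟨z, rfl⟩ := (Φ j).surjective z
    simp only [Equiv.trans_apply, Equiv.symm_apply_apply]
    rw [hΦ2 i x y z (fun h => hx2 (by rw [h])) (fun h => hy2 (by rw [h])) (fun h => hz2 (by rw [h]))
      (fun h => hxy (by rw [h])) (fun h => hyz (by rw [h])) (fun h => hxz (by rw [h])),
      hΦ2 j x y z (fun h => hx1 (by rw [h])) (fun h => hy1 (by rw [h])) (fun h => hz1 (by rw [h]))
      (fun h => hxy (by rw [h])) (fun h => hyz (by rw [h])) (fun h => hxz (by rw [h]))]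
  have hu : ∀ i j, i ≠ j → u i ≠ u j := fun i j h h' => h (u.injective h')
  let ψ : Fin n → Fin n := fun x => if x = u 0 then Φ 1 x else Φ 0 x
  have hψ : ∀ i x, x ≠ u i → ψ x = Φ i x := by
    intro i x hx
    by_cases hx0 : x = u 0
    · have e : ψ x = Φ 1 x := by simp [ψ, hx0]
      rw [e]
      apply hag
      · rw [hx0]; exact hu 0 1 (by decide)
      · exact hx
    · have e : ψ x = Φ 0 x := by simp [ψ, hx0]
      rw [e]
      exact hag 0 i x hx0 hx
  -- some `u i` avoids a pair
  have hpair : ∀ x y : Fin n, ∃ i, x ≠ u i ∧ y ≠ u i := by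
    intro x y
    by_contra hcon
    push Not at hcon
    have h0 := hcon 0; have h1 := hcon 1; have h2 := hcon 2
    have e01 := hu 0 1 (by decide); have e02 := hu 0 2 (by decide); have e12 := hu 1 2 (by decide)
    by_cases a0 : x = u 0
    · by_cases a1 : x = u 1
      · exact e01 (a0.symm.trans a1)
      · by_cases a2 : x = u 2
        · exact e02 (a0.symm.trans a2)
        · exact e12 ((h1 a1).symm.trans (h2 a2))
    · by_cases a1 : x = u 1
      · by_cases a2 : x = u 2
        · exact e12 (a1.symm.trans a2)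
        · exact e02 ((h0 a0).symm.trans (h2 a2))
      · exact e01 ((h0 a0).symm.trans (h1 a1))
  have hinj : Function.Injective ψ := by
    intro x y hxy
    obtain ⟨i, h1, h2⟩ := hpair x y
    rw [hψ i x h1, hψ i y h2] at hxy
    exact (Φ i).injective hxy
  -- the triples that avoid some `u i`
  have hmain : ∀ x y z i, x ≠ u i → y ≠ u i → z ≠ u i → x ≠ y → y ≠ z → x ≠ z →
      t H (ψ x) (ψ y) (ψ z) = t G x y z := by
    intro x y z i hx hy hz hxy hyz hxz
    rw [hψ i x hx, hψ i y hy, hψ i z hz]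
    exact hΦ2 i x y z hx hy hz hxy hyz hxz
  refine switchEquiv_of_equiv (Equiv.ofBijective ψ (Finite.injective_iff_bijective.1 hinj)) ?_
  intro x y z hxy hyz hxz
  show t H (ψ x) (ψ y) (ψ z) = _
  by_cases hex : ∃ i, x ≠ u i ∧ y ≠ u i ∧ z ≠ u i
  · obtain ⟨i, h1, h2, h3⟩ := hex
    exact hmain x y z i h1 h2 h3 hxy hyz hxz
  push Not at hex
  -- a fourth vertex
  obtain ⟨w, hw1, hw2, hw3⟩ : ∃ w, w ≠ x ∧ w ≠ y ∧ w ≠ z := by
    by_contra hcon
    push Not at hcon
    have : (Finset.univ : Finset (Fin n)) ⊆ {x, y, z} := by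
      intro v _
      simp only [Finset.mem_insert, Finset.mem_singleton]
      by_cases h1 : v = x
      · exact Or.inl h1
      by_cases h2 : v = y
      · exact Or.inr (Or.inl h2)
      exact Or.inr (Or.inr (hcon v h1 h2))
    have h1 := Finset.card_le_card this
    have h2 := Finset.card_le_three (a := x) (b := y) (c := z)
    rw [Finset.card_univ, Fintype.card_fin] at h1
    omega
  -- the triple is `u 0, u 1, u 2`
  have hset : ({x, y, z} : Finset (Fin n)) = univ.image u := by
    symm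
    apply Finset.eq_of_subset_of_card_le
    · intro b hb
      rw [mem_image] at hb
      obtain ⟨i, -, rfl⟩ := hb
      simp only [mem_insert, mem_singleton]
      by_cases h1 : x = u i
      · exact Or.inl h1.symm
      by_cases h2 : y = u i
      · exact Or.inr (Or.inl h2.symm)
      exact Or.inr (Or.inr (hex i h1 h2).symm)
    · rw [card_image_of_injective _ u.injective, card_univ, Fintype.card_fin]
      exact Finset.card_le_three
  have hmem : ∀ b, b = x ∨ b = y ∨ b = z → ∃ i, b = u i := by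
    intro b hb
    have : b ∈ ({x, y, z} : Finset (Fin n)) := by simpa using hb
    rw [hset, mem_image] at this
    obtain ⟨i, -, hi⟩ := this
    exact ⟨i, hi.symm⟩
  have hwu : ∀ i, w ≠ u i := by
    intro i h
    have : u i ∈ ({x, y, z} : Finset (Fin n)) := by
      rw [hset]; exact mem_image_of_mem _ (mem_univ i)
    rw [← h] at this
    simp only [mem_insert, mem_singleton] at this
    tauto
  obtain ⟨ix, hix⟩ := hmem x (Or.inl rfl)
  obtain ⟨iy, hiy⟩ := hmem y (Or.inr (Or.inl rfl))
  obtain ⟨iz, hiz⟩ := hmem z (Or.inr (Or.inr rfl))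
  rw [t_four H (ψ x) (ψ y) (ψ z) (ψ w), t_four G x y z w,
    hmain x y w iz (hiz ▸ hxz) (hiz ▸ hyz) (hwu iz) hxy hw2.symm hw1.symm,
    hmain x z w iy (hiy ▸ hxy) (hiy ▸ hyz.symm) (hwu iy) hxz hw3.symm hw1.symm,
    hmain y z w ix (hix ▸ hxy.symm) (hix ▸ hxz.symm) (hwu ix) hyz hw3.symm hw2.symm]

open Classical in
theorem few_three : ∃ n₀ : ℕ, ∀ n ≥ n₀,
    ((univ.filter fun H : SimpleGraph (Fin n) => ¬ (Three H ∧ Recon H)).card : ℝ) ≤
      (2 : ℝ) ^ (-(n : ℝ) / 20) * Fintype.card (SimpleGraph (Fin n)) := by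
  obtain ⟨n₀, hn₀⟩ := num
  refine ⟨n₀, fun n hn => ?_⟩
  obtain ⟨h1, h2, h3⟩ := hn₀ n hn
  have h4 := few_aux h1 rfl h2
  have h5 : (univ.filter fun H : SimpleGraph (Fin n) => ¬ (Three H ∧ Recon H)) ⊆
      univ.filter fun H : SimpleGraph (Fin n) => ¬ Rigid H := by
    intro H hH
    rw [mem_filter] at hH ⊢
    exact ⟨mem_univ _, fun h => hH.2 ⟨h.three (by omega), h.recon (by omega)⟩⟩
  calc ((univ.filter fun H : SimpleGraph (Fin n) => ¬ (Three H ∧ Recon H)).card : ℝ)
      ≤ ((univ.filter fun H : SimpleGraph (Fin n) => ¬ Rigid H).card : ℝ) := by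
        exact_mod_cast card_le_card h5
    _ ≤ _ := h4
    _ ≤ _ := by gcongr

end Pool.Q6.SW
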