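import Pool.Agent.Q6.SW.Even
import Pool.Agent.Q6.SW.Three

/-!
# One card determines the switching class among the classes with even pair degrees
-/

set_option maxHeartbeats 400000

namespace Pool.Q6.SW

open SimpleGraph Finset

theorem one_card {n : ℕ} {G H : SimpleGraph (Fin n)} (hG : ∀ x y, x ≠ y → Even (d G x y))
    (hH : ∀ x y, x ≠ y → Even (d H x y)) {u v : Fin n}
    (huv : SwitchEquiv (card G u) (card H v)) : SwitchEquiv G H := by
  obtain ⟨Φ, hΦ1, hΦ2⟩ := exists_perm_one huv
  have key : ∀ x y, x ≠ u → y ≠ u → x ≠ y → t H (Φ x) (Φ y) (Φ u) = t G x y u := by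
    intro x y hx hy hxy
    have h1 := d_split G hx.symm hy.symm
    have h2 := d_split H (v := Φ u) (x := Φ x) (y := Φ y)
      (fun h => hx (Φ.injective h).symm) (fun h => hy (Φ.injective h).symm)
    rw [dv_eq hΦ2 hx hy hxy] at h2
    have h3 := hG x y hxy
    have h4 := hH (Φ x) (Φ y) (fun h => hxy (Φ.injective h))
    rw [h1] at h3
    rw [h2] at h4
    revert h3 h4
    generalize dv G u x y = k
    cases t G x y u <;> cases t H (Φ x) (Φ y) (Φ u)
    · intro _ _; rfl
    · intro h5 h6
      rw [if_pos rfl, Nat.even_add_one] at h6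
      simp only [Bool.false_eq_true, if_false, add_zero] at h5
      exact absurd h5 h6
    · intro h5 h6
      rw [if_pos rfl, Nat.even_add_one] at h5
      simp only [Bool.false_eq_true, if_false, add_zero] at h6
      exact absurd h6 h5
    · intro _ _; rfl
  refine switchEquiv_of_equiv Φ ?_
  intro x y z hxy hyz hxz
  by_cases hx : x = u
  · rw [hx] at hxy hxz ⊢
    rw [t_rot, t_rot G u y z]
    exact key y z hxy.symm hxz.symm hyz
  by_cases hy : y = u
  · rw [hy] at hxy hyz ⊢
    rw [← t_rot, ← t_rot G z x u]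
    exact key z x hyz.symm hx hxz.symm
  by_cases hz : z = u
  · rw [hz]
    exact key x y hx hy hxy
  exact hΦ2 x y z hx hy hz hxy hyz hxz

end Pool.Q6.SW
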