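import Pool.Agent.Q6.SW.Count

/-!
# Few graphs are not rigid
-/

set_option maxHeartbeats 400000

namespace Pool.Q6.SW

open SimpleGraph Finset

theorem sum_fun_le {n : ℕ} (p q : Fin n) {v : ℝ} (hv : 0 ≤ v) :
    ∑ f : Fin n → Fin n, v ^ (moved p q f).card ≤ (n : ℝ) * n * (1 + n * v) ^ n := by
  have hn : (1 : ℝ) ≤ n := by
    have : 0 < n := Fin.pos p
    exact_mod_cast this
  have h1 : ∀ f : Fin n → Fin n, v ^ (moved p q f).card =
      ∏ x, (if x ≠ p ∧ x ≠ q ∧ f x ≠ x then v else 1) := by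
    intro f
    unfold moved
    rw [prod_ite, prod_const, prod_const_one, mul_one]
  simp_rw [h1]
  have h2 := Finset.prod_univ_sum (fun _ : Fin n => (univ : Finset (Fin n)))
    (fun x y : Fin n => (if x ≠ p ∧ x ≠ q ∧ y ≠ x then v else 1 : ℝ))
  rw [Fintype.piFinset_univ] at h2
  rw [← h2]
  calc ∏ x : Fin n, ∑ y : Fin n, (if x ≠ p ∧ x ≠ q ∧ y ≠ x then v else 1 : ℝ)
      ≤ ∏ x : Fin n, ((if x = p then (n : ℝ) else 1) * (if x = q then (n : ℝ) else 1) *
        (1 + n * v)) := by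
        apply prod_le_prod
        · intro x _
          apply sum_nonneg
          intro y _
          split_ifs <;> linarith
        · intro x _
          have hnv : 0 ≤ (n : ℝ) * v := by positivity
          by_cases hp : x = p
          · have : ∑ y : Fin n, (if x ≠ p ∧ x ≠ q ∧ y ≠ x then v else 1 : ℝ) = n := by
              simp [hp]
            rw [this, if_pos hp]
            have h3 : (1 : ℝ) ≤ (if x = q then (n : ℝ) else 1) := by split_ifs <;> linarith
            have h4 : (1 : ℝ) ≤ 1 + n * v := by linarith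
            calc (n : ℝ) = n * 1 * 1 := by ring
              _ ≤ n * (if x = q then (n : ℝ) else 1) * (1 + n * v) := by gcongr
          by_cases hq : x = q
          · have : ∑ y : Fin n, (if x ≠ p ∧ x ≠ q ∧ y ≠ x then v else 1 : ℝ) = n := by
              simp [hq]
            rw [this, if_neg hp, if_pos hq]
            have h4 : (1 : ℝ) ≤ 1 + n * v := by linarith
            calc (n : ℝ) = 1 * n * 1 := by ring
              _ ≤ 1 * n * (1 + n * v) := by gcongr
          rw [if_neg hp, if_neg hq]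
          have h5 : ∀ y : Fin n, (if x ≠ p ∧ x ≠ q ∧ y ≠ x then v else 1 : ℝ) ≤
              (if y = x then 1 else 0) + v := by
            intro y
            by_cases hy : y = x
            · simp [hy, hv]
            · simp [hy, hp, hq]
          calc ∑ y : Fin n, (if x ≠ p ∧ x ≠ q ∧ y ≠ x then v else 1 : ℝ)
              ≤ ∑ y : Fin n, ((if y = x then 1 else 0) + v) := sum_le_sum fun y _ => h5 y
            _ = 1 + n * v := by
              rw [sum_add_distrib, sum_ite_eq' univ x, sum_const, card_univ, Fintype.card_fin]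
              simp
            _ = 1 * 1 * (1 + n * v) := by ring
    _ = (n : ℝ) * n * (1 + n * v) ^ n := by
        rw [prod_mul_distrib, prod_mul_distrib, prod_ite_eq' univ p, prod_ite_eq' univ q, prod_const,
          card_univ, Fintype.card_fin]
        simp

open Classical in
theorem few_aux {n : ℕ} (hn : 11 ≤ n) {v : ℝ} (hv : v = (1 / 2 : ℝ) ^ ((n - 11) / 18))
    (hv1 : (n : ℝ) * (n * v) ≤ 1) :
    ((univ.filter fun H : SimpleGraph (Fin n) => ¬ Rigid H).card : ℝ) ≤
      3 * (n : ℝ) ^ 4 * v * Fintype.card (SimpleGraph (Fin n)) := by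
  have hv0 : 0 < v := by rw [hv]; positivity
  have hvle : v ≤ 1 := by rw [hv]; exact pow_le_one₀ (by norm_num) (by norm_num)
  set N : ℝ := ((Fintype.card (SimpleGraph (Fin n)) : ℕ) : ℝ) with hN
  have hN0 : 0 ≤ N := by rw [hN]; positivity
  have hbad : ∀ (p q : Fin n) (σ : Equiv.Perm (Fin n)), (moved p q σ).Nonempty →
      ((univ.filter fun H : SimpleGraph (Fin n) => Pres H p q σ).card : ℝ) ≤
        N * (v * v ^ (moved p q σ).card) := by
    intro p q σ hm
    have h1 := bad_card hn p q σ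
    have h2 : ((univ.filter fun H : SimpleGraph (Fin n) => Pres H p q σ).card : ℝ) *
        2 ^ ((moved p q σ).card * (2 * ((n - 11) / 18))) ≤ N := by
      rw [hN]; exact_mod_cast h1
    set m := (moved p q σ).card with hmdef
    have hm1 : 1 ≤ m := card_pos.2 hm
    have h3 : (2 : ℝ) ^ (m * (2 * ((n - 11) / 18))) * v ^ (2 * m) = 1 := by
      rw [hv, ← pow_mul, show (n - 11) / 18 * (2 * m) = m * (2 * ((n - 11) / 18)) by ring, ← mul_pow]
      norm_num
    have h4 : v ^ (2 * m) ≤ v * v ^ m := by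
      rw [two_mul, pow_add]
      gcongr
      calc v ^ m ≤ v ^ 1 := pow_le_pow_of_le_one hv0.le hvle hm1
        _ = v := pow_one v
    calc ((univ.filter fun H : SimpleGraph (Fin n) => Pres H p q σ).card : ℝ)
        = ((univ.filter fun H : SimpleGraph (Fin n) => Pres H p q σ).card : ℝ) *
          ((2 : ℝ) ^ (m * (2 * ((n - 11) / 18))) * v ^ (2 * m)) := by rw [h3, mul_one]
      _ = (((univ.filter fun H : SimpleGraph (Fin n) => Pres H p q σ).card : ℝ) *
          (2 : ℝ) ^ (m * (2 * ((n - 11) / 18)))) * v ^ (2 * m) := by ring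
      _ ≤ N * (v * v ^ m) := by gcongr
  have hperm : ∀ p q : Fin n, ∑ σ ∈ univ.filter (fun σ : Equiv.Perm (Fin n) => (moved p q σ).Nonempty),
      v ^ (moved p q σ).card ≤ (n : ℝ) * n * 3 := by
    intro p q
    calc ∑ σ ∈ univ.filter (fun σ : Equiv.Perm (Fin n) => (moved p q σ).Nonempty),
        v ^ (moved p q σ).card ≤ ∑ σ : Equiv.Perm (Fin n), v ^ (moved p q σ).card := by
          apply sum_le_sum_of_subset_of_nonneg (filter_subset _ _)
          intro σ _ _
          positivity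
      _ = ∑ f ∈ univ.image (fun σ : Equiv.Perm (Fin n) => (σ : Fin n → Fin n)),
          v ^ (moved p q f).card := by
          rw [sum_image]
          intro σ _ τ _ h
          exact DFunLike.coe_injective h
      _ ≤ ∑ f : Fin n → Fin n, v ^ (moved p q f).card := by
          apply sum_le_sum_of_subset_of_nonneg (subset_univ _)
          intro σ _ _
          positivity
      _ ≤ (n : ℝ) * n * (1 + n * v) ^ n := sum_fun_le p q hv0.le
      _ ≤ (n : ℝ) * n * 3 := by
          gcongr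
          calc (1 + n * v) ^ n ≤ (Real.exp (n * v)) ^ n := by
                gcongr
                rw [add_comm]
                exact Real.add_one_le_exp _
            _ = Real.exp (n * (n * v)) := by rw [← Real.exp_nat_mul]
            _ ≤ Real.exp 1 := Real.exp_le_exp.2 hv1
            _ ≤ 3 := by
                have := Real.exp_one_lt_d9
                linarith
  have hcov : (univ.filter fun H : SimpleGraph (Fin n) => ¬ Rigid H) ⊆
      univ.biUnion fun p : Fin n => univ.biUnion fun q : Fin n =>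
        (univ.filter (fun σ : Equiv.Perm (Fin n) => (moved p q σ).Nonempty)).biUnion fun σ =>
          univ.filter fun H : SimpleGraph (Fin n) => Pres H p q σ := by
    intro H hH
    rw [mem_filter] at hH
    have h2 := hH.2
    unfold Rigid at h2
    push Not at h2
    obtain ⟨p, q, σ, h3, x, h4, h5, h6⟩ := h2
    simp only [mem_biUnion, mem_univ, true_and, mem_filter]
    exact ⟨p, q, σ, ⟨x, by simp [moved, h4, h5, h6]⟩, h3⟩
  have h1 := card_le_card hcov
  have h2 : (univ.biUnion fun p : Fin n => univ.biUnion fun q : Fin n =>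
        (univ.filter (fun σ : Equiv.Perm (Fin n) => (moved p q σ).Nonempty)).biUnion fun σ =>
          univ.filter fun H : SimpleGraph (Fin n) => Pres H p q σ).card ≤
      ∑ p : Fin n, ∑ q : Fin n,
        ∑ σ ∈ univ.filter (fun σ : Equiv.Perm (Fin n) => (moved p q σ).Nonempty),
          (univ.filter fun H : SimpleGraph (Fin n) => Pres H p q σ).card :=
    card_biUnion_le.trans (sum_le_sum fun p _ => card_biUnion_le.trans
      (sum_le_sum fun q _ => card_biUnion_le))
  calc ((univ.filter fun H : SimpleGraph (Fin n) => ¬ Rigid H).card : ℝ)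
      ≤ ∑ p : Fin n, ∑ q : Fin n,
        ∑ σ ∈ univ.filter (fun σ : Equiv.Perm (Fin n) => (moved p q σ).Nonempty),
          ((univ.filter fun H : SimpleGraph (Fin n) => Pres H p q σ).card : ℝ) := by
        exact_mod_cast h1.trans h2
    _ ≤ ∑ p : Fin n, ∑ q : Fin n,
        ∑ σ ∈ univ.filter (fun σ : Equiv.Perm (Fin n) => (moved p q σ).Nonempty),
          N * (v * v ^ (moved p q σ).card) := by
        gcongr with p _ q _ σ hσ
        exact hbad p q σ (mem_filter.1 hσ).2
    _ ≤ ∑ p : Fin n, ∑ q : Fin n, N * v * ((n : ℝ) * n * 3) := by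
        gcongr with p _ q _
        have : ∑ σ ∈ univ.filter (fun σ : Equiv.Perm (Fin n) => (moved p q σ).Nonempty),
          N * (v * v ^ (moved p q σ).card) = N * v *
          ∑ σ ∈ univ.filter (fun σ : Equiv.Perm (Fin n) => (moved p q σ).Nonempty),
            v ^ (moved p q σ).card := by
          rw [mul_sum]
          apply sum_congr rfl
          intro σ _
          ring
        rw [this]
        exact mul_le_mul_of_nonneg_left (hperm p q) (by positivity)
    _ = 3 * (n : ℝ) ^ 4 * v * N := by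
        simp only [sum_const, card_univ, Fintype.card_fin, nsmul_eq_mul]
        ring

theorem num : ∃ n₀ : ℕ, ∀ n ≥ n₀, 11 ≤ n ∧
    (n : ℝ) * (n * (1 / 2 : ℝ) ^ ((n - 11) / 18)) ≤ 1 ∧
    3 * (n : ℝ) ^ 4 * (1 / 2 : ℝ) ^ ((n - 11) / 18) ≤ (2 : ℝ) ^ (-(n : ℝ) / 20) := by
  have h1 : Filter.Tendsto (fun n : ℕ => (n : ℝ) ^ 4 * ((2 : ℝ) ^ (-(1 : ℝ) / 180)) ^ n)
      Filter.atTop (nhds 0) := by
    apply tendsto_pow_const_mul_const_pow_of_abs_lt_one
    rw [abs_of_pos (by positivity)]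
    exact Real.rpow_lt_one_of_one_lt_of_neg (by norm_num) (by norm_num)
  have h2 : ∀ᶠ n : ℕ in Filter.atTop, (n : ℝ) ^ 4 * ((2 : ℝ) ^ (-(1 : ℝ) / 180)) ^ n < 1 / 12 :=
    h1.eventually_lt_const (by norm_num)
  obtain ⟨n₀, hn₀⟩ := Filter.eventually_atTop.1 h2
  refine ⟨max n₀ 28, ?_⟩
  intro n hn
  have hn1 : n₀ ≤ n := le_trans (le_max_left _ _) hn
  have hn2 : 28 ≤ n := le_trans (le_max_right _ _) hn
  have h3 := hn₀ n hn1
  have h4 : (1 / 2 : ℝ) ^ ((n - 11) / 18) ≤ 4 * (2 : ℝ) ^ (-(n : ℝ) / 18) := by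
    have e1 : (1 / 2 : ℝ) ^ ((n - 11) / 18) = (2 : ℝ) ^ (-(((n - 11) / 18 : ℕ) : ℝ)) := by
      rw [Real.rpow_neg (by norm_num), Real.rpow_natCast, one_div, inv_pow]
    have e2 : (4 : ℝ) * (2 : ℝ) ^ (-(n : ℝ) / 18) = (2 : ℝ) ^ ((2 : ℝ) + -(n : ℝ) / 18) := by
      rw [Real.rpow_add (by norm_num)]
      norm_num
    rw [e1, e2]
    apply Real.rpow_le_rpow_of_exponent_le (by norm_num)
    have e3 : n ≤ 18 * ((n - 11) / 18) + 28 := by omega
    have e4 : (n : ℝ) ≤ 18 * (((n - 11) / 18 : ℕ) : ℝ) + 28 := by exact_mod_cast e3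
    linarith
  have h5 : (2 : ℝ) ^ (-(n : ℝ) / 18) = ((2 : ℝ) ^ (-(1 : ℝ) / 180)) ^ n * (2 : ℝ) ^ (-(n : ℝ) / 20) := by
    rw [← Real.rpow_natCast, ← Real.rpow_mul (by norm_num), ← Real.rpow_add (by norm_num)]
    congr 1
    ring
  have h6 : 3 * (n : ℝ) ^ 4 * (1 / 2 : ℝ) ^ ((n - 11) / 18) ≤ (2 : ℝ) ^ (-(n : ℝ) / 20) := by
    calc 3 * (n : ℝ) ^ 4 * (1 / 2 : ℝ) ^ ((n - 11) / 18)
        ≤ 3 * (n : ℝ) ^ 4 * (4 * (2 : ℝ) ^ (-(n : ℝ) / 18)) := by gcongr
      _ = 12 * ((n : ℝ) ^ 4 * ((2 : ℝ) ^ (-(1 : ℝ) / 180)) ^ n) * (2 : ℝ) ^ (-(n : ℝ) / 20) := by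
          rw [h5]; ring
      _ ≤ 12 * (1 / 12) * (2 : ℝ) ^ (-(n : ℝ) / 20) := by gcongr
      _ = (2 : ℝ) ^ (-(n : ℝ) / 20) := by ring
  refine ⟨by omega, ?_, h6⟩
  have h7 : (2 : ℝ) ^ (-(n : ℝ) / 20) ≤ 1 := by
    apply Real.rpow_le_one_of_one_le_of_nonpos (by norm_num)
    have : (0 : ℝ) ≤ n := by positivity
    linarith
  have h8 : (1 : ℝ) ≤ n := by
    have : 1 ≤ n := by omega
    exact_mod_cast this
  calc (n : ℝ) * (n * (1 / 2 : ℝ) ^ ((n - 11) / 18))
      = 1 * (n : ℝ) ^ 2 * (1 / 2 : ℝ) ^ ((n - 11) / 18) := by ring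
    _ ≤ 3 * (n : ℝ) ^ 4 * (1 / 2 : ℝ) ^ ((n - 11) / 18) := by
        gcongr
        · norm_num
        · norm_num
    _ ≤ 1 := h6.trans h7

open Classical in
theorem few : ∃ n₀ : ℕ, ∀ n ≥ n₀,
    ((univ.filter fun H : SimpleGraph (Fin n) => ¬ Recon H).card : ℝ) ≤
      (2 : ℝ) ^ (-(n : ℝ) / 20) * Fintype.card (SimpleGraph (Fin n)) := by
  obtain ⟨n₀, hn₀⟩ := num
  refine ⟨n₀, fun n hn => ?_⟩
  obtain ⟨h1, h2, h3⟩ := hn₀ n hn
  have h4 := few_aux h1 rfl h2
  have h5 : (univ.filter fun H : SimpleGraph (Fin n) => ¬ Recon H) ⊆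
      univ.filter fun H : SimpleGraph (Fin n) => ¬ Rigid H := by
    intro H hH
    rw [mem_filter] at hH ⊢
    exact ⟨mem_univ _, fun h => hH.2 (h.recon (by omega))⟩
  calc ((univ.filter fun H : SimpleGraph (Fin n) => ¬ Recon H).card : ℝ)
      ≤ ((univ.filter fun H : SimpleGraph (Fin n) => ¬ Rigid H).card : ℝ) := by
        exact_mod_cast card_le_card h5
    _ ≤ _ := h4
    _ ≤ _ := by gcongr

end Pool.Q6.SW
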